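import Pool.Agent.W_a4f561_h8.Plm
import Pool.Agent.W_a4f561_h25.Pages
import Pool.Agent.W_a4f561_h34.Drw0
import Pool.Agent.W_a4f561_h73.A4Cnv
import Pool.Agent.W_a4f561_h73.A4Two

/-!
MP_a4f561_co (LatticePages): assembly.
-/

set_option autoImplicit false

namespace Pool.Agent.W_a4f561_h8

open Sum Pool.Agent.W_a4f561_h25 Pool.Agent.W_a4f561_h34 Pool.Agent.W_a4f561_h73

/-- Paths between real vertices. -/
private theorem Asm_path {V E : Type} {A : V → V → Prop} {t : V} {P : Pl (Option (Option V)) E}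
    {j : {p : V × V // A p.1 p.2} → E} {eb et : E}
    (hj : ∀ p, P.tl (j p) = some (some p.1.1) ∧ P.hd (j p) = some (some p.1.2))
    (b1 : P.tl eb = some none) (t1 : P.tl et = some (some t)) (t2 : P.hd et = none)
    (hall : ∀ e, e = eb ∨ e = et ∨ ∃ p, e = j p) (Q : List E) : ∀ x y : V,
    Pa P.tl P.hd (some (some x)) Q (some (some y)) →
      (Q = [] ∧ x = y) ∨ (∃ p : {p : V × V // A p.1 p.2}, Q = [j p] ∧ p.1 = (x, y)) ∨
      (∃ w, Relation.TransGen A x w ∧ Relation.TransGen A w y) := by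
  have hnone : ∀ e, P.tl e ≠ none := by
    intro e
    rcases hall e with rfl | rfl | ⟨p, rfl⟩
    · rw [b1]; simp
    · rw [t1]; simp
    · rw [(hj p).1]; simp
  induction Q with
  | nil =>
    intro x y h
    have h1 : (some (some x) : Option (Option V)) = some (some y) := h
    exact Or.inl ⟨rfl, Option.some.inj (Option.some.inj h1)⟩
  | cons e Q ih =>
    intro x y h
    obtain ⟨h1, h2⟩ := h
    rcases hall e with rfl | rfl | ⟨p, rfl⟩
    · rw [b1] at h1
      exact absurd (Option.some.inj h1) (by simp)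
    · exfalso
      rw [t2] at h2
      cases Q with
      | nil =>
        have h3 : (none : Option (Option V)) = some (some y) := h2
        exact absurd h3 (by simp)
      | cons e' Q' => exact hnone e' h2.1
    · rw [(hj p).1] at h1
      rw [(hj p).2] at h2
      have hx : p.1.1 = x := Option.some.inj (Option.some.inj h1)
      have hA : A x p.1.2 := hx ▸ p.2
      right
      rcases ih _ _ h2 with ⟨h3, h4⟩ | ⟨p', h3, h4⟩ | ⟨w, h3, h4⟩
      · left
        refine ⟨p, by rw [h3], ?_⟩
        rw [← hx, ← h4]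
      · right
        refine ⟨p.1.2, Relation.TransGen.single hA, Relation.TransGen.single ?_⟩
        have h5 := p'.2
        rw [h4] at h5
        exact h5
      · right
        exact ⟨w, Relation.TransGen.head hA h3, h4⟩

/-- The order and the pages for planar st-graphs without transitive edges. -/
theorem assembly (n : ℕ) (G : Digraph (Fin n)) (f : Fin n → ℝ × ℝ) (hf : Function.Injective f)
    (γ : Fin n → Fin n → ℝ → ℝ × ℝ)
    (h1 : ∀ u v, G.Adj u v →
      ContinuousOn (γ u v) (Set.Icc (0:ℝ) 1) ∧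
      γ u v 0 = f u ∧ γ u v 1 = f v ∧
      StrictMonoOn (fun t => (γ u v t).2) (Set.Icc (0:ℝ) 1) ∧
      (∀ w, ∀ s ∈ Set.Ioo (0:ℝ) 1, γ u v s ≠ f w))
    (h2 : ∀ u v u' v', G.Adj u v → G.Adj u' v' → (u, v) ≠ (u', v') →
      ∀ s ∈ Set.Ioo (0:ℝ) 1, ∀ t ∈ Set.Icc (0:ℝ) 1, γ u v s ≠ γ u' v' t)
    (s t : Fin n) (hs : ∀ v, (∀ u, ¬ G.Adj u v) ↔ v = s) (ht : ∀ v, (∀ u, ¬ G.Adj v u) ↔ v = t)
    (htr : ∀ u v w, G.Adj u v → ¬ (Relation.TransGen G.Adj u w ∧ Relation.TransGen G.Adj w v)) :
    ∃ σ : Fin n ≃ Fin n, ∃ p : Fin n → Fin n → Fin ((Nat.log 2 n + 1) * (2 * Nat.log 2 n + 3)),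
      (∀ u v, G.Adj u v → σ u < σ v) ∧
      (∀ F : Finset (Fin n × Fin n), (∀ e ∈ F, G.Adj e.1 e.2) →
        (∀ e ∈ F, ∀ e' ∈ F, e ≠ e' →
          (σ e.1 < σ e'.1 ∧ σ e'.1 < σ e.2 ∧ σ e.2 < σ e'.2) ∨
          (σ e'.1 < σ e.1 ∧ σ e.1 < σ e'.2 ∧ σ e'.2 < σ e.2)) →
        F.card ≤ 2 * Nat.log 2 n + 3) ∧
      (∀ a b c d, G.Adj a b → G.Adj c d → p a b = p c d →
        ¬ (σ a < σ c ∧ σ c < σ b ∧ σ b < σ d)) := by
  classical
  obtain ⟨D, _⟩ := exists_drw_y f hf γ h1 h2
  have hs1 : ∀ u, ¬ G.Adj u s := (hs s).2 rfl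
  have ht1 : ∀ u, ¬ G.Adj t u := (ht t).2 rfl
  have hs2 : ∀ v, v ≠ s → ∃ u, G.Adj u v := by
    intro v hv
    by_contra hcon
    push Not at hcon
    exact hv ((hs v).1 hcon)
  have ht2 : ∀ v, v ≠ t → ∃ w, G.Adj v w := by
    intro v hv
    by_contra hcon
    push Not at hcon
    exact hv ((ht v).1 hcon)
  by_cases hst : s = t
  · have hno : ∀ u w, ¬ G.Adj u w := by
      intro u w huw
      obtain ⟨u0, hu0, hmin⟩ := (Finset.univ.filter fun u => ∃ w, G.Adj u w).exists_min_image D.y
        ⟨u, Finset.mem_filter.2 ⟨Finset.mem_univ _, w, huw⟩⟩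
      obtain ⟨w0, hw0⟩ := (Finset.mem_filter.1 hu0).2
      have h3 : u0 ≠ s := by
        rintro rfl
        rw [hst] at hw0
        exact ht1 _ hw0
      obtain ⟨u', hu'⟩ := hs2 u0 h3
      have h4 := hmin u' (Finset.mem_filter.2 ⟨Finset.mem_univ _, u0, hu'⟩)
      exact absurd (D.up _ _ hu') (not_lt.2 h4)
    refine ⟨Equiv.refl _, fun _ _ => ⟨0, by positivity⟩, fun u v h => absurd h (hno u v), ?_,
      fun a b _ _ h => absurd h (hno a b)⟩
    intro F hF _
    have h3 : F = ∅ := by
      rw [Finset.eq_empty_iff_forall_notMem]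
      intro e he
      exact hno _ _ (hF e he)
    rw [h3, Finset.card_empty]
    exact Nat.zero_le _
  obtain ⟨E, iE, P, j, eb, et, hj, b1, b2, t1, t2, hall⟩ := drw_pl D hst hs1 ht1 hs2 ht2
  have hpath := Asm_path hj b1 t1 t2 hall
  have hnone : ∀ e, P.tl e ≠ none := by
    intro e
    rcases hall e with rfl | rfl | ⟨p, rfl⟩
    · rw [b1]; simp
    · rw [t1]; simp
    · rw [(hj p).1]; simp
  have hStP : StP P (some none) none := by
    refine ⟨fun e => ?_, hnone, fun v hv => ?_, fun v hv => ?_⟩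
    · rcases hall e with rfl | rfl | ⟨p, rfl⟩
      · rw [b2]; simp
      · rw [t2]; simp
      · rw [(hj p).2]; simp
    · rcases v with _ | _ | x
      · exact ⟨et, t2⟩
      · exact absurd rfl hv
      · by_cases hx : x = s
        · exact ⟨eb, by rw [b2, hx]⟩
        · obtain ⟨u, hu⟩ := hs2 x hx
          exact ⟨j ⟨(u, x), hu⟩, (hj _).2⟩
    · rcases v with _ | _ | x
      · exact absurd rfl hv
      · exact ⟨eb, b1⟩
      · by_cases hx : x = t
        · exact ⟨et, by rw [t1, hx]⟩
        · obtain ⟨u, hu⟩ := ht2 x hx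
          exact ⟨j ⟨(x, u), hu⟩, (hj _).1⟩
  have htr' : ∀ e Q, Pa P.tl P.hd (P.tl e) Q (P.hd e) → Q = [e] := by
    intro e Q hQ
    rcases hall e with rfl | rfl | ⟨p, rfl⟩
    · rw [b1, b2] at hQ
      cases Q with
      | nil =>
        have h3 : (some none : Option (Option (Fin n))) = some (some s) := hQ
        exact absurd (Option.some.inj h3) (by simp)
      | cons e' Q' =>
        obtain ⟨h3, h4⟩ := hQ
        have h5 : e' = e := by
          rcases hall e' with h5 | rfl | ⟨p, rfl⟩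
          · exact h5
          · rw [t1] at h3
            exact absurd (Option.some.inj h3) (by simp)
          · rw [(hj p).1] at h3
            exact absurd (Option.some.inj h3) (by simp)
        rw [h5, b2] at h4
        rcases hpath Q' s s h4 with ⟨h6, _⟩ | ⟨p, _, h7⟩ | ⟨w, _, h7⟩
        · rw [h5, h6]
        · have h8 := p.2
          rw [h7] at h8
          exact absurd h8 (hs1 s)
        · obtain ⟨z, _, hz⟩ := Relation.TransGen.tail'_iff.1 h7
          exact absurd hz (hs1 z)
    · rw [t1, t2] at hQ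
      cases Q with
      | nil =>
        have h3 : (some (some t) : Option (Option (Fin n))) = none := hQ
        exact absurd h3 (by simp)
      | cons e' Q' =>
        obtain ⟨h3, h4⟩ := hQ
        have h5 : e' = e := by
          rcases hall e' with rfl | h5 | ⟨p, rfl⟩
          · rw [b1] at h3
            exact absurd (Option.some.inj h3) (by simp)
          · exact h5
          · rw [(hj p).1] at h3
            have h6 : p.1.1 = t := Option.some.inj (Option.some.inj h3)
            have h7 := p.2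
            rw [h6] at h7
            exact absurd h7 (ht1 _)
        rw [h5, t2] at h4
        cases Q' with
        | nil => rw [h5]
        | cons e'' Q'' => exact absurd h4.1 (hnone e'')
    · rw [(hj p).1, (hj p).2] at hQ
      rcases hpath Q _ _ hQ with ⟨_, h4⟩ | ⟨p', h3, h4⟩ | ⟨w, h3, h4⟩
      · exact absurd (D.up _ _ p.2) (by rw [h4]; exact lt_irrefl _)
      · have h5 : p' = p := Subtype.ext h4
        rw [h3, h5]
      · exact absurd ⟨h3, h4⟩ (htr _ _ w p.2)
  have hinj : ∀ a b : Fin n, a ≠ b → (some (some a) : Option (Option (Fin n))) ≠ some (some b) := by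
    intro a b hab h
    exact hab (Option.some.inj (Option.some.inj h))
  have hreal : ∀ e, ∃ x : Fin n, P.tl e = some (some x) ∨ P.hd e = some (some x) := by
    intro e
    rcases hall e with rfl | rfl | ⟨p, rfl⟩
    · exact ⟨s, Or.inr b2⟩
    · exact ⟨t, Or.inl t1⟩
    · exact ⟨p.1.1, Or.inl (hj p).1⟩
  have hN : ∀ e, {z : Option (Option (Fin n)) | z ≠ some none ∧ z ≠ none ∧ z ≠ P.tl e ∧
      z ≠ P.hd e}.ncard + 1 ≤ n := by
    intro e
    obtain ⟨x, hx⟩ := hreal e
    have h3 : {z : Option (Option (Fin n)) | z ≠ some none ∧ z ≠ none ∧ z ≠ P.tl e ∧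
        z ≠ P.hd e} ⊆ (fun y : Fin n => some (some y)) '' {y | y ≠ x} := by
      rintro z ⟨z1, z2, z3, z4⟩
      rcases z with _ | _ | y
      · exact absurd rfl z2
      · exact absurd rfl z1
      · refine ⟨y, ?_, rfl⟩
        rintro rfl
        rcases hx with hx | hx
        · exact z3 hx.symm
        · exact z4 hx.symm
    have h4 := Set.ncard_le_ncard h3 (Set.toFinite _)
    have h5 := Set.ncard_image_le (f := fun y : Fin n => (some (some y) : Option (Option (Fin n))))
      (s := {y | y ≠ x}) (Set.toFinite _)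
    have h6 : ({y : Fin n | y ≠ x}).ncard + 1 ≤ n := by
      have h7 : ({y : Fin n | y ≠ x}) = (({x} : Set (Fin n)))ᶜ := by
        ext y
        simp
      rw [h7]
      have h8 := Set.ncard_add_ncard_compl ({x} : Set (Fin n)) (Set.toFinite _) (Set.toFinite _)
      rw [Set.ncard_singleton, Nat.card_eq_fintype_card, Fintype.card_fin] at h8
      omega
    omega
  obtain ⟨k, k1, k2, k3⟩ := pl_log hStP (by simp) htr' n hN
  obtain ⟨σ, hσ⟩ := exists_perm (fun a b => k (some (some a)) < k (some (some b)))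
    (fun a => lt_irrefl _) (fun a b d => lt_trans)
    (fun a b hab => lt_or_gt_of_ne (fun h => hinj a b hab (k1 h)))
  have hfw : ∀ u v, G.Adj u v → σ u < σ v := by
    intro u v huv
    rw [hσ]
    have h3 := k2 (j ⟨(u, v), huv⟩)
    rw [(hj ⟨(u, v), huv⟩).1, (hj ⟨(u, v), huv⟩).2] at h3
    exact h3
  have hjinj : Function.Injective j := by
    intro p p' h
    have q1 := (hj p).1
    have q2 := (hj p).2
    rw [h, (hj p').1] at q1
    rw [h, (hj p').2] at q2
    exact Subtype.ext (Prod.ext (Option.some.inj (Option.some.inj q1)).symm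
      (Option.some.inj (Option.some.inj q2)).symm)
  have htw : ∀ F : Finset (Fin n × Fin n), (∀ e ∈ F, G.Adj e.1 e.2) →
      IsTwist Prod.fst Prod.snd (fun x y => σ x < σ y) F →
      F.card ≤ 2 * Nat.log 2 n + 3 := by
    intro F hF hT
    have hinj : Function.Injective fun e : {e // e ∈ F} => j ⟨e.1, hF e.1 e.2⟩ := by
      intro e e' h
      have := hjinj h
      exact Subtype.ext (by simpa using this)
    have h3 := k3 (F.attach.map ⟨_, hinj⟩) (by
      intro e he e' he' hne
      obtain ⟨g, _, rfl⟩ := Finset.mem_map.1 he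
      obtain ⟨g', _, rfl⟩ := Finset.mem_map.1 he'
      have hgg : g.1 ≠ g'.1 := fun h => hne (by rw [Subtype.ext h])
      have h4 := hT g.1 g.2 g'.1 g'.2 hgg
      simp only [hσ] at h4
      simp only [Cr, Function.Embedding.coeFn_mk, (hj _).1, (hj _).2]
      exact h4)
    rw [Finset.card_map, Finset.card_attach] at h3
    exact h3
  obtain ⟨p, hp⟩ := pages_of_twist (K := 2 * Nat.log 2 n + 3) (by omega) σ G.Adj hfw htw
  exact ⟨σ, p, hfw, htw, hp⟩

end Pool.Agent.W_a4f561_h8
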