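import Mathlib

/-!
MP_a4f561_co (LatticePages): the invariants of the sweep (heights, birth times of edges, death times of
vertices) and one step.
-/

set_option autoImplicit false

namespace Pool.Agent.W_a4f561_h8

variable {V E : Type}

/-- The edge `f` covers the vertex `z`. -/
def Cv (tl hd : E → V) (h : V → ℚ) (z : V) (f : E) : Prop := h (tl f) < h z ∧ h z < h (hd f)

/-- The edges `e`, `f` cross. -/
def Cr (tl hd : E → V) (h : V → ℚ) (e f : E) : Prop :=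
  (h (tl e) < h (tl f) ∧ h (tl f) < h (hd e) ∧ h (hd e) < h (hd f)) ∨
  (h (tl f) < h (tl e) ∧ h (tl e) < h (hd f) ∧ h (hd f) < h (hd e))

/-- The edge `f` lies in the closed gap of `e`. -/
def Ins (tl hd : E → V) (h : V → ℚ) (f e : E) : Prop :=
  h (tl e) ≤ h (tl f) ∧ h (hd f) ≤ h (hd e)

/-- The vertices of `U` covered by `e`. -/
def Gp (tl hd : E → V) (h : V → ℚ) (U : Set V) (e : E) : Set V := {z | z ∈ U ∧ Cv tl hd h z e}

/-- `F` is a set of pairwise crossing edges. -/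
def Tw (tl hd : E → V) (h : V → ℚ) (F : Finset E) : Prop :=
  ∀ f ∈ F, ∀ g ∈ F, f ≠ g → Cr tl hd h f g

/-- The logarithm of the size of the gap. -/
noncomputable def lg (tl hd : E → V) (h : V → ℚ) (U : Set V) (e : E) : ℕ :=
  Nat.log 2 ((Gp tl hd h U e).ncard + 1)

theorem Cr.symm {tl hd : E → V} {h : V → ℚ} {e f : E} (H : Cr tl hd h e f) : Cr tl hd h f e :=
  Or.symm H

theorem cr_not_ins {tl hd : E → V} {h : V → ℚ} {e f : E} (H : Cr tl hd h e f) :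
    ¬ Ins tl hd h f e := by
  rintro ⟨h1, h2⟩
  rcases H with ⟨h3, h4, h5⟩ | ⟨h3, h4, h5⟩
  · exact absurd h2 (not_le.2 h5)
  · exact absurd h1 (not_le.2 h3)

/-- The state of the sweep: `S` the edges so far, `U` their ends, `W` the edges and `wv` the vertices of
the wall, `h` the heights, `b` the birth times of edges, `d` the death times of vertices, `T` the time. -/
structure Sta (tl hd : E → V) (S : Set E) (U : Set V) (W : Set E) (wv : Set V) (h : V → ℚ)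
    (b : E → ℕ) (d : V → ℕ) (T : ℕ) : Prop where
  SU : ∀ g ∈ S, tl g ∈ U ∧ hd g ∈ U
  WS : ∀ e ∈ W, e ∈ S
  wU : ∀ z ∈ wv, z ∈ U
  inj : ∀ x ∈ U, ∀ y ∈ U, h x = h y → x = y
  inc : ∀ g ∈ S, h (tl g) < h (hd g)
  bT : ∀ g ∈ S, b g ≤ T
  dT : ∀ z ∈ U, z ∉ wv → d z ≤ T
  gap : ∀ z ∈ U, z ∉ wv → ∃ e ∈ W, Cv tl hd h z e
  nw : ∀ e ∈ W, ∀ z ∈ wv, ¬ Cv tl hd h z e
  dis : ∀ z ∈ U, ∀ e ∈ W, ∀ f ∈ W, Cv tl hd h z e → Cv tl hd h z f → e = f
  cr : ∀ e ∈ S, ∀ f ∈ S, Cr tl hd h e f → b e ≠ b f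
  old : ∀ e ∈ S, ∀ f ∈ S, b e < b f → ∀ z, (z = tl e ∨ z = hd e) → Cv tl hd h z f →
    z ∉ wv ∧ d z ≤ b f
  c1 : ∀ z ∈ U, z ∉ wv → ∀ e ∈ W, Cv tl hd h z e → ∀ F : Finset E,
    (∀ f ∈ F, f ∈ S ∧ Cv tl hd h z f ∧ d z ≤ b f) → Tw tl hd h F →
    F.card ≤ lg tl hd h U e + 1
  c2 : ∀ z ∈ U, z ∉ wv → ∀ e ∈ W, Cv tl hd h z e → ∀ F : Finset E,
    (∀ f ∈ F, f ∈ S ∧ Cv tl hd h z f ∧ d z ≤ b f) → Tw tl hd h F →
    (∀ f ∈ F, ¬ Ins tl hd h f e) → F.card ≤ lg tl hd h U e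

/-- All twists are small. -/
theorem Sta.fin {tl hd : E → V} {S : Set E} {U : Set V} {W : Set E} {wv : Set V} {h : V → ℚ}
    {b : E → ℕ} {d : V → ℕ} {T : ℕ} (H : Sta tl hd S U W wv h b d T) (N : ℕ)
    (hN : ∀ e ∈ W, lg tl hd h U e ≤ N) (F : Finset E) (hF : ∀ f ∈ F, f ∈ S)
    (hT : Tw tl hd h F) : F.card ≤ 2 * N + 3 := by
  classical
  rcases F.eq_empty_or_nonempty with h0 | h0
  · rw [h0, Finset.card_empty]
    omega
  obtain ⟨e, he, hmin⟩ := F.exists_min_image b h0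
  have hlt : ∀ f ∈ F, f ≠ e → b e < b f := by
    intro f hf hfe
    exact lt_of_le_of_ne (hmin f hf) (H.cr e (hF e he) f (hF f hf) (hT e he f hf (Ne.symm hfe)))
  have hone : ∀ z, (z = tl e ∨ z = hd e) → ∀ G : Finset E, (∀ f ∈ G, f ∈ F ∧ f ≠ e ∧ Cv tl hd h z f) →
      G.card ≤ N + 1 := by
    intro z hz G hG
    rcases G.eq_empty_or_nonempty with h1 | ⟨g, hg⟩
    · rw [h1, Finset.card_empty]
      omega
    have hzU : z ∈ U := by
      rcases hz with rfl | rfl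
      · exact (H.SU e (hF e he)).1
      · exact (H.SU e (hF e he)).2
    obtain ⟨g1, g2, g3⟩ := hG g hg
    obtain ⟨hzw, -⟩ := H.old e (hF e he) g (hF g g1) (hlt g g1 g2) z hz g3
    obtain ⟨e', he', hze'⟩ := H.gap z hzU hzw
    have h2 := H.c1 z hzU hzw e' he' hze' G (fun f hf => by
      obtain ⟨f1, f2, f3⟩ := hG f hf
      exact ⟨hF f f1, f3, (H.old e (hF e he) f (hF f f1) (hlt f f1 f2) z hz f3).2⟩)
      (fun f hf f' hf' => hT f (hG f hf).1 f' (hG f' hf').1)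
    have h3 := hN e' he'
    omega
  have h1 := hone (tl e) (Or.inl rfl) ((F.erase e).filter fun f => Cv tl hd h (tl e) f) (by
    intro f hf
    obtain ⟨f1, f2⟩ := Finset.mem_filter.1 hf
    exact ⟨Finset.mem_of_mem_erase f1, Finset.ne_of_mem_erase f1, f2⟩)
  have h2 := hone (hd e) (Or.inr rfl) ((F.erase e).filter fun f => Cv tl hd h (hd e) f) (by
    intro f hf
    obtain ⟨f1, f2⟩ := Finset.mem_filter.1 hf
    exact ⟨Finset.mem_of_mem_erase f1, Finset.ne_of_mem_erase f1, f2⟩)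
  have h3 : F.erase e ⊆ ((F.erase e).filter fun f => Cv tl hd h (tl e) f) ∪
      ((F.erase e).filter fun f => Cv tl hd h (hd e) f) := by
    intro f hf
    have hfe := Finset.ne_of_mem_erase hf
    have hfF := Finset.mem_of_mem_erase hf
    rw [Finset.mem_union, Finset.mem_filter, Finset.mem_filter]
    rcases hT e he f hfF (Ne.symm hfe) with ⟨k1, k2, k3⟩ | ⟨k1, k2, k3⟩
    · exact Or.inr ⟨hf, k2, k3⟩
    · exact Or.inl ⟨hf, k1, k2⟩
  have h4 := (Finset.card_le_card h3).trans (Finset.card_union_le _ _)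
  have h5 := Finset.card_erase_add_one he
  omega

end Pool.Agent.W_a4f561_h8
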