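import Pool.Agent.W_a4f561_h8.Cor

/-!
MP_a4f561_co (LatticePages): one step of the sweep.
-/

set_option autoImplicit false

namespace Pool.Agent.W_a4f561_h8

variable {V E : Type}

theorem Sta.step [Finite V] {tl hd : E → V} {S : Set E} {U : Set V} {Wo Wm : Set E} {wo L : Set V}
    {h : V → ℚ} {b : E → ℕ} {d : V → ℕ} {T : ℕ}
    (H : Sta tl hd S U (Wo ∪ Wm) (wo ∪ L) h b d T)
    (hWd : ∀ e ∈ Wo, e ∉ Wm) (hLd : ∀ z ∈ wo, z ∉ L)
    {Q : Set E} {R : Set V} {h' : V → ℚ} {e' et eo : E}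
    (hQS : ∀ f ∈ Q, f ∉ S) (hRU : ∀ z ∈ R, z ∉ U) (hh : ∀ z ∈ U, h' z = h z)
    (hQU : ∀ f ∈ Q, tl f ∈ U ∪ R ∧ hd f ∈ U ∪ R)
    (hQi : ∀ f ∈ Q, h' (tl f) < h' (hd f))
    (hinj : ∀ x ∈ U ∪ R, ∀ y ∈ U ∪ R, h' x = h' y → x = y)
    (he' : e' ∈ Q)
    (hgap : ∀ z ∈ U ∪ R, (Cv tl hd h' z e' ↔ (z ∈ L ∨ ∃ e ∈ Wm, Cv tl hd h z e) ∧ z ∈ U))
    (hoth : ∀ f ∈ Q, f ≠ e' → ∀ z ∈ U ∪ R, ¬ Cv tl hd h' z f)
    (hnew : ∀ e ∈ Wo, ∀ z ∈ R, ¬ Cv tl hd h' z e)
    (het : et ∈ Wm) (heo : eo ∈ Wm) (hne : et ≠ eo) (hL : ∃ l, l ∈ L)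
    (hsz : (Gp tl hd h U et).ncard ≤ (Gp tl hd h U eo).ncard)
    (hins : ∀ e ∈ Wm, e ≠ et → h' (tl e') ≤ h' (tl e) ∧ h' (hd e) ≤ h' (hd e')) :
    ∃ b' d', Sta tl hd (S ∪ Q) (U ∪ R) (Wo ∪ Q) (wo ∪ R) h' b' d' (T + 1) := by
  classical
  -- transfer of the relations between old objects
  have hcv : ∀ z ∈ U, ∀ f ∈ S, (Cv tl hd h' z f ↔ Cv tl hd h z f) := by
    intro z hz f hf
    obtain ⟨f1, f2⟩ := H.SU f hf
    unfold Cv
    rw [hh z hz, hh _ f1, hh _ f2]
  have hcr : ∀ e ∈ S, ∀ f ∈ S, (Cr tl hd h' e f ↔ Cr tl hd h e f) := by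
    intro e he f hf
    obtain ⟨e1, e2⟩ := H.SU e he
    obtain ⟨f1, f2⟩ := H.SU f hf
    unfold Cr
    rw [hh _ e1, hh _ e2, hh _ f1, hh _ f2]
  have hin : ∀ e ∈ S, ∀ f ∈ S, (Ins tl hd h' f e ↔ Ins tl hd h f e) := by
    intro e he f hf
    obtain ⟨e1, e2⟩ := H.SU e he
    obtain ⟨f1, f2⟩ := H.SU f hf
    unfold Ins
    rw [hh _ e1, hh _ e2, hh _ f1, hh _ f2]
  have hWoS : ∀ e ∈ Wo, e ∈ S := fun e he => H.WS e (Or.inl he)
  have hWmS : ∀ e ∈ Wm, e ∈ S := fun e he => H.WS e (Or.inr he)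
  have hwoU : ∀ z ∈ wo, z ∈ U := fun z hz => H.wU z (Or.inl hz)
  have hLU : ∀ z ∈ L, z ∈ U := fun z hz => H.wU z (Or.inr hz)
  have hSU' : ∀ g ∈ S ∪ Q, tl g ∈ U ∪ R ∧ hd g ∈ U ∪ R := by
    rintro g (hg | hg)
    · exact ⟨Or.inl (H.SU g hg).1, Or.inl (H.SU g hg).2⟩
    · exact hQU g hg
  -- a vertex in an old gap is not in the new one
  have hWoQ : ∀ e ∈ Wo, ∀ z ∈ U, Cv tl hd h z e → ¬ Cv tl hd h' z e' := by
    intro e he z hz h1 h2
    rcases ((hgap z (Or.inl hz)).1 h2).1 with h3 | ⟨e2, h3, h4⟩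
    · exact H.nw e (Or.inl he) z (Or.inr h3) h1
    · have h5 := H.dis z hz e (Or.inl he) e2 (Or.inr h3) h1 h4
      rw [h5] at he
      exact hWd _ he h3
  have hQe : ∀ f ∈ Q, ∀ z ∈ U ∪ R, Cv tl hd h' z f → f = e' := by
    intro f hf z hz h1
    by_contra h2
    exact hoth f hf h2 z hz h1
  -- vertices covered by the new gap are dead
  have hdead : ∀ z ∈ U ∪ R, Cv tl hd h' z e' → z ∈ U ∧ z ∉ wo := by
    intro z hz h1
    obtain ⟨h2, h3⟩ := (hgap z hz).1 h1
    refine ⟨h3, fun h4 => ?_⟩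
    rcases h2 with h5 | ⟨e2, h5, h6⟩
    · exact hLd z h4 h5
    · exact H.nw e2 (Or.inr h5) z (Or.inl h4) h6
  -- edges of the new side do not cross
  have hQc : ∀ e ∈ Q, ∀ f ∈ Q, ¬ Cr tl hd h' e f := by
    intro e he f hf h1
    obtain ⟨e1, e2⟩ := hQU e he
    obtain ⟨f1, f2⟩ := hQU f hf
    rcases h1 with ⟨k1, k2, k3⟩ | ⟨k1, k2, k3⟩
    · have h3 := hQe e he _ f1 ⟨k1, k2⟩
      have h4 := hQe f hf _ e2 ⟨k2, k3⟩
      rw [h3, h4] at k1
      exact lt_irrefl _ k1
    · have h3 := hQe e he _ f2 ⟨k2, k3⟩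
      have h4 := hQe f hf _ e1 ⟨k1, k2⟩
      rw [h3, h4] at k1
      exact lt_irrefl _ k1
  -- sizes
  have hGo : ∀ e ∈ Wo, Gp tl hd h' (U ∪ R) e = Gp tl hd h U e := by
    intro e he
    ext z
    constructor
    · rintro ⟨h1, h2⟩
      rcases h1 with h1 | h1
      · exact ⟨h1, (hcv z h1 e (hWoS e he)).1 h2⟩
      · exact absurd h2 (hnew e he z h1)
    · rintro ⟨h1, h2⟩
      exact ⟨Or.inl h1, (hcv z h1 e (hWoS e he)).2 h2⟩
  have hlgo : ∀ e ∈ Wo, lg tl hd h' (U ∪ R) e = lg tl hd h U e := by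
    intro e he
    unfold lg
    rw [hGo e he]
  have hGm : ∀ e ∈ Wm, Gp tl hd h U e ⊆ Gp tl hd h' (U ∪ R) e' := by
    rintro e he z ⟨h1, h2⟩
    exact ⟨Or.inl h1, (hgap z (Or.inl h1)).2 ⟨Or.inr ⟨e, he, h2⟩, h1⟩⟩
  have hlgm : ∀ e ∈ Wm, lg tl hd h U e ≤ lg tl hd h' (U ∪ R) e' := by
    intro e he
    unfold lg
    exact Nat.log_mono_right (Nat.add_le_add_right (Set.ncard_le_ncard (hGm e he) (Set.toFinite _)) 1)
  have hlgt : lg tl hd h U et + 1 ≤ lg tl hd h' (U ∪ R) e' := by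
    obtain ⟨l, hl⟩ := hL
    have h1 : Gp tl hd h U et ∪ Gp tl hd h U eo ∪ {l} ⊆ Gp tl hd h' (U ∪ R) e' := by
      rintro z ((hz | hz) | hz)
      · exact hGm et het hz
      · exact hGm eo heo hz
      · have h2 : z = l := hz
        rw [h2]
        exact ⟨Or.inl (hLU l hl), (hgap l (Or.inl (hLU l hl))).2 ⟨Or.inl hl, hLU l hl⟩⟩
    have h2 : Disjoint (Gp tl hd h U et) (Gp tl hd h U eo) := by
      rw [Set.disjoint_left]
      rintro z ⟨h3, h4⟩ ⟨_, h5⟩
      exact hne (H.dis z h3 et (Or.inr het) eo (Or.inr heo) h4 h5)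
    have h3 : Disjoint (Gp tl hd h U et ∪ Gp tl hd h U eo) {l} := by
      rw [Set.disjoint_right]
      rintro z hz hz'
      have h4 : z = l := hz
      rw [h4] at hz'
      rcases hz' with hz' | hz'
      · exact H.nw et (Or.inr het) l (Or.inr hl) hz'.2
      · exact H.nw eo (Or.inr heo) l (Or.inr hl) hz'.2
    have h4 := Set.ncard_le_ncard h1 (Set.toFinite _)
    rw [Set.ncard_union_eq h3 (Set.toFinite _) (Set.toFinite _),
      Set.ncard_union_eq h2 (Set.toFinite _) (Set.toFinite _), Set.ncard_singleton] at h4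
    have h5 : lg tl hd h U et + 1 = Nat.log 2 (((Gp tl hd h U et).ncard + 1) * 2) := by
      unfold lg
      rw [Nat.log_mul_base (by norm_num) (by omega)]
    rw [h5]
    unfold lg
    exact Nat.log_mono_right (by omega)
  let b' : E → ℕ := fun f => if f ∈ Q then T + 1 else b f
  let d' : V → ℕ := fun z => if z ∈ L then T + 1 else d z
  have bQ : ∀ f ∈ Q, b' f = T + 1 := fun f hf => if_pos hf
  have bS : ∀ f, f ∉ Q → b' f = b f := fun f hf => if_neg hf
  have dL : ∀ z ∈ L, d' z = T + 1 := fun z hz => if_pos hz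
  have dn : ∀ z, z ∉ L → d' z = d z := fun z hz => if_neg hz
  have SQ : ∀ f ∈ S, f ∉ Q := fun f hf hq => hQS f hq hf
  -- the twists for a vertex in the new gap, without the new edge
  have key : ∀ z ∈ U ∪ R, z ∉ wo ∪ R → Cv tl hd h' z e' → ∀ F : Finset E,
      (∀ f ∈ F, f ∈ S ∪ Q ∧ Cv tl hd h' z f ∧ d' z ≤ b' f) → Tw tl hd h' F → e' ∉ F →
      F.card ≤ lg tl hd h' (U ∪ R) e' + 1 ∧
      ((∀ f ∈ F, ¬ Ins tl hd h' f e') → F.card ≤ lg tl hd h' (U ∪ R) e') := by
    intro z hz hzw hze F hF hT heF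
    obtain ⟨h1, hzU⟩ := (hgap z hz).1 hze
    by_cases hzL : z ∈ L
    · have h2 : F = ∅ := by
        rw [Finset.eq_empty_iff_forall_notMem]
        intro f hf
        obtain ⟨f1, f2, f3⟩ := hF f hf
        by_cases hfQ : f ∈ Q
        · rw [hQe f hfQ z hz f2] at hf
          exact heF hf
        · rw [dL z hzL, bS f hfQ] at f3
          have f5 := H.bT f (f1.resolve_right hfQ)
          omega
      rw [h2, Finset.card_empty]
      exact ⟨Nat.zero_le _, fun _ => Nat.zero_le _⟩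
    obtain ⟨e2, he2, hze2⟩ := h1.resolve_left hzL
    have hzw' : z ∉ wo ∪ L := by
      rintro (h3 | h3)
      · exact hzw (Or.inl h3)
      · exact hzL h3
    have hFS : ∀ f ∈ F, f ∈ S := by
      intro f hf
      obtain ⟨f1, f2, f3⟩ := hF f hf
      rcases f1 with f1 | f1
      · exact f1
      · rw [hQe f f1 z hz f2] at hf
        exact absurd hf heF
    have hF2 : ∀ f ∈ F, f ∈ S ∧ Cv tl hd h z f ∧ d z ≤ b f := by
      intro f hf
      obtain ⟨f1, f2, f3⟩ := hF f hf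
      have f4 := hFS f hf
      rw [dn z hzL, bS f (SQ f f4)] at f3
      exact ⟨f4, (hcv z hzU f f4).1 f2, f3⟩
    have hT2 : Tw tl hd h F := by
      intro f hf g hg hfg
      exact (hcr f (hFS f hf) g (hFS g hg)).1 (hT f hf g hg hfg)
    have h4 := H.c1 z hzU hzw' e2 (Or.inr he2) hze2 _ hF2 hT2
    have h5 := hlgm e2 he2
    refine ⟨by omega, fun h6 => ?_⟩
    by_cases h3 : e2 = et
    · rw [h3] at h4
      exact h4.trans hlgt
    · refine (H.c2 z hzU hzw' e2 (Or.inr he2) hze2 _ hF2 hT2 ?_).trans h5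
      intro f hf h7
      obtain ⟨h8, h9⟩ := (hin e2 (hWmS e2 he2) f (hFS f hf)).2 h7
      obtain ⟨h10, h11⟩ := hins e2 he2 h3
      exact h6 f hf ⟨h10.trans h8, h9.trans h11⟩
  -- the twists for a vertex in an old gap
  have keyo : ∀ z ∈ U ∪ R, z ∉ wo ∪ R → ∀ e ∈ Wo, Cv tl hd h' z e → z ∈ U ∧ z ∉ wo ∪ L ∧
      Cv tl hd h z e ∧ ∀ F : Finset E,
      (∀ f ∈ F, f ∈ S ∪ Q ∧ Cv tl hd h' z f ∧ d' z ≤ b' f) → Tw tl hd h' F →
      (∀ f ∈ F, f ∈ S ∧ Cv tl hd h z f ∧ d z ≤ b f) ∧ Tw tl hd h F := by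
    intro z hz hzw e he hze
    have hzU : z ∈ U := by
      rcases hz with hz | hz
      · exact hz
      · exact absurd hze (hnew e he z hz)
    have hze' := (hcv z hzU e (hWoS e he)).1 hze
    have hzL : z ∉ L := fun h1 => H.nw e (Or.inl he) z (Or.inr h1) hze'
    refine ⟨hzU, ?_, hze', ?_⟩
    · rintro (h3 | h3)
      · exact hzw (Or.inl h3)
      · exact hzL h3
    intro F hF hT
    have hFS : ∀ f ∈ F, f ∈ S := by
      intro f hf
      obtain ⟨f1, f2, f3⟩ := hF f hf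
      rcases f1 with f1 | f1
      · exact f1
      · rw [hQe f f1 z hz f2] at f2
        exact absurd f2 (hWoQ e he z hzU hze')
    refine ⟨fun f hf => ?_, fun f hf g hg hfg =>
      (hcr f (hFS f hf) g (hFS g hg)).1 (hT f hf g hg hfg)⟩
    obtain ⟨f1, f2, f3⟩ := hF f hf
    have f4 := hFS f hf
    rw [dn z hzL, bS f (SQ f f4)] at f3
    exact ⟨f4, (hcv z hzU f f4).1 f2, f3⟩
  refine ⟨b', d', hSU', ?_, ?_, hinj, ?_, ?_, ?_, ?_, ?_, ?_, ?_, ?_, ?_, ?_⟩
  · -- WS
    rintro e (he | he)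
    · exact Or.inl (hWoS e he)
    · exact Or.inr he
  · -- wU
    rintro z (hz | hz)
    · exact Or.inl (hwoU z hz)
    · exact Or.inr hz
  · -- inc
    rintro g (hg | hg)
    · rw [hh _ (H.SU g hg).1, hh _ (H.SU g hg).2]
      exact H.inc g hg
    · exact hQi g hg
  · -- bT
    rintro g (hg | hg)
    · rw [bS g (SQ g hg)]
      exact (H.bT g hg).trans (Nat.le_succ T)
    · rw [bQ g hg]
  · -- dT
    rintro z (hz | hz) hzw
    · by_cases hzL : z ∈ L
      · rw [dL z hzL]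
      · rw [dn z hzL]
        refine (H.dT z hz ?_).trans (Nat.le_succ T)
        rintro (h3 | h3)
        · exact hzw (Or.inl h3)
        · exact hzL h3
    · exact absurd (Or.inr hz) hzw
  · -- gap
    rintro z (hz | hz) hzw
    · by_cases hzL : z ∈ L
      · exact ⟨e', Or.inr he', (hgap z (Or.inl hz)).2 ⟨Or.inl hzL, hz⟩⟩
      · obtain ⟨e, he, hze⟩ := H.gap z hz (by
          rintro (h3 | h3)
          · exact hzw (Or.inl h3)
          · exact hzL h3)
        rcases he with he | he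
        · exact ⟨e, Or.inl he, (hcv z hz e (hWoS e he)).2 hze⟩
        · exact ⟨e', Or.inr he', (hgap z (Or.inl hz)).2 ⟨Or.inr ⟨e, he, hze⟩, hz⟩⟩
    · exact absurd (Or.inr hz) hzw
  · -- nw
    rintro e (he | he) z hz hze
    · rcases hz with hz | hz
      · exact H.nw e (Or.inl he) z (Or.inl hz) ((hcv z (hwoU z hz) e (hWoS e he)).1 hze)
      · exact hnew e he z hz hze
    · have hzUR : z ∈ U ∪ R := by
        rcases hz with hz | hz
        · exact Or.inl (hwoU z hz)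
        · exact Or.inr hz
      rw [hQe e he z hzUR hze] at hze
      obtain ⟨h1, h2⟩ := hdead z hzUR hze
      rcases hz with hz | hz
      · exact h2 hz
      · exact hRU z hz h1
  · -- dis
    rintro z hz e he f hf hze hzf
    rcases he with he | he
    · have hzU : z ∈ U := by
        rcases hz with hz | hz
        · exact hz
        · exact absurd hze (hnew e he z hz)
      have hze' := (hcv z hzU e (hWoS e he)).1 hze
      rcases hf with hf | hf
      · exact H.dis z hzU e (Or.inl he) f (Or.inl hf) hze' ((hcv z hzU f (hWoS f hf)).1 hzf)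
      · rw [hQe f hf z hz hzf] at hzf
        exact absurd hzf (hWoQ e he z hzU hze')
    · rcases hf with hf | hf
      · have hzU : z ∈ U := by
          rcases hz with hz | hz
          · exact hz
          · exact absurd hzf (hnew f hf z hz)
        rw [hQe e he z hz hze] at hze
        exact absurd hze (hWoQ f hf z hzU ((hcv z hzU f (hWoS f hf)).1 hzf))
      · rw [hQe e he z hz hze, hQe f hf z hz hzf]
  · -- cr
    rintro e he f hf h1
    by_cases he1 : e ∈ Q
    · by_cases hf1 : f ∈ Q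
      · exact absurd h1 (hQc e he1 f hf1)
      · rw [bQ e he1, bS f hf1]
        have h2 := H.bT f (hf.resolve_right hf1)
        omega
    · have he2 := he.resolve_right he1
      by_cases hf1 : f ∈ Q
      · rw [bQ f hf1, bS e he1]
        have h2 := H.bT e he2
        omega
      · have hf2 := hf.resolve_right hf1
        rw [bS e he1, bS f hf1]
        exact H.cr e he2 f hf2 ((hcr e he2 f hf2).1 h1)
  · -- old
    intro e he f hf hlt z hz hzf
    have hzUR : z ∈ U ∪ R := by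
      rcases hz with rfl | rfl
      · exact (hSU' e he).1
      · exact (hSU' e he).2
    by_cases hf1 : f ∈ Q
    · rw [hQe f hf1 z hzUR hzf] at hzf
      obtain ⟨h1, h2⟩ := hdead z hzUR hzf
      refine ⟨?_, ?_⟩
      · rintro (h3 | h3)
        · exact h2 h3
        · exact hRU z h3 h1
      · rw [bQ f hf1]
        by_cases hzL : z ∈ L
        · rw [dL z hzL]
        · rw [dn z hzL]
          refine (H.dT z h1 ?_).trans (Nat.le_succ T)
          rintro (h3 | h3)
          · exact h2 h3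
          · exact hzL h3
    · have hf2 := hf.resolve_right hf1
      have he1 : e ∉ Q := by
        intro he1
        rw [bQ e he1, bS f hf1] at hlt
        have h2 := H.bT f hf2
        omega
      have he2 := he.resolve_right he1
      rw [bS e he1, bS f hf1] at hlt
      have hzU : z ∈ U := by
        rcases hz with rfl | rfl
        · exact (H.SU e he2).1
        · exact (H.SU e he2).2
      obtain ⟨h1, h2⟩ := H.old e he2 f hf2 hlt z hz ((hcv z hzU f hf2).1 hzf)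
      refine ⟨?_, ?_⟩
      · rintro (h3 | h3)
        · exact h1 (Or.inl h3)
        · exact hRU z h3 hzU
      · rw [bS f hf1, dn z (fun h3 => h1 (Or.inr h3))]
        exact h2
  · -- c1
    intro z hz hzw e he hze F hF hT
    rcases he with he | he
    · obtain ⟨k1, k2, k3, k4⟩ := keyo z hz hzw e he hze
      obtain ⟨k5, k6⟩ := k4 F hF hT
      rw [hlgo e he]
      exact H.c1 z k1 k2 e (Or.inl he) k3 F k5 k6
    · have h1 := hQe e he z hz hze
      rw [h1] at hze ⊢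
      by_cases h2 : e' ∈ F
      · have h3 := (key z hz hzw hze (F.erase e') (fun f hf => hF f (Finset.mem_of_mem_erase hf))
          (fun f hf g hg => hT f (Finset.mem_of_mem_erase hf) g (Finset.mem_of_mem_erase hg))
          (Finset.notMem_erase _ _)).2 (fun f hf =>
            cr_not_ins (hT e' h2 f (Finset.mem_of_mem_erase hf) (Finset.ne_of_mem_erase hf).symm))
        have h4 := Finset.card_erase_add_one h2
        omega
      · exact (key z hz hzw hze F hF hT h2).1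
  · -- c2
    intro z hz hzw e he hze F hF hT hI
    rcases he with he | he
    · obtain ⟨k1, k2, k3, k4⟩ := keyo z hz hzw e he hze
      obtain ⟨k5, k6⟩ := k4 F hF hT
      rw [hlgo e he]
      exact H.c2 z k1 k2 e (Or.inl he) k3 F k5 k6 (fun f hf h1 =>
        hI f hf ((hin e (hWoS e he) f (k5 f hf).1).2 h1))
    · have h1 := hQe e he z hz hze
      rw [h1] at hze hI ⊢
      have h2 : e' ∉ F := fun h2 => hI e' h2 ⟨le_rfl, le_rfl⟩
      exact (key z hz hzw hze F hF hT h2).2 hI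

end Pool.Agent.W_a4f561_h8
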