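import Pool.Agent.W_a4f561_h8.Plc
import Pool.Agent.W_a4f561_h8.Stp

/-!
MP_a4f561_co (LatticePages): one step of the sweep, with lists.
-/

set_option autoImplicit false

namespace Pool.Agent.W_a4f561_h8

open Pool.Agent.W_a4f561_h34

variable {V E : Type}

theorem set_w (W1 W2 l : List E) :
    {e | e ∈ W1 ++ (l ++ W2)} = {e | e ∈ W1 ∨ e ∈ W2} ∪ {e | e ∈ l} := by
  ext e
  simp only [Set.mem_ofPred_eq, List.mem_append, Set.mem_union]
  tauto

theorem set_v {hd : E → V} (s u : V) (W1 W2 M : List E) (e1 e2 : E) (hu : hd e2 = u) :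
    {z | z ∈ s :: (W1 ++ ((e1 :: (M ++ [e2])) ++ W2)).map hd} =
      {z | z ∈ s :: W1.map hd ∨ z = u ∨ z ∈ W2.map hd} ∪ {z | z ∈ (e1 :: M).map hd} := by
  ext z
  simp only [Set.mem_ofPred_eq, List.mem_cons, List.map_append, List.mem_append, Set.mem_union,
    List.map_cons, List.map_nil, hu, List.not_mem_nil, or_false]
  tauto

/-- One face: the new vertices are placed in the interval `(lo, up)` of heights. -/
theorem face_go [Finite V] {tl hd : E → V} {s t v u : V} {S : Set E} {U : Set V}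
    {W1 W2 M N : List E} {e1 e2 f1 f2 : E} {h : V → ℚ} {b : E → ℕ} {d : V → ℕ} {T : ℕ}
    (p1 : Pa tl hd s W1 v) (pm : Pa tl hd v (e1 :: (M ++ [e2])) u)
    (pq : Pa tl hd v (f1 :: (N ++ [f2])) u) (p2 : Pa tl hd u W2 t)
    (H : Sta tl hd S U {e | e ∈ W1 ++ ((e1 :: (M ++ [e2])) ++ W2)}
      {z | z ∈ s :: (W1 ++ ((e1 :: (M ++ [e2])) ++ W2)).map hd} h b d T)
    (hQS : ∀ f ∈ f1 :: (N ++ [f2]), f ∉ S) (hRU : ∀ z ∈ (f1 :: N).map hd, z ∉ U)
    (hRn : ((f1 :: N).map hd).Nodup) (lo up : ℚ) (h1 : h v ≤ lo) (h2 : lo < up) (h3 : up ≤ h u)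
    (e' et eo : E)
    (hcase : (e' = f1 ∧ et = e2 ∧ eo = e1 ∧ up = h u ∧ ∀ z ∈ U, h v < h z → h z < h u → h z ≤ lo) ∨
      (e' = f2 ∧ et = e1 ∧ eo = e2 ∧ lo = h v ∧ ∀ z ∈ U, h v < h z → h z < h u → up ≤ h z))
    (hsz : (Gp tl hd h U et).ncard ≤ (Gp tl hd h U eo).ncard) :
    ∃ h' b' d' T', Sta tl hd (S ∪ {f | f ∈ f1 :: (N ++ [f2])}) (U ∪ {z | z ∈ (f1 :: N).map hd})
      {e | e ∈ W1 ++ ((f1 :: (N ++ [f2])) ++ W2)}
      {z | z ∈ s :: (W1 ++ ((f1 :: (N ++ [f2])) ++ W2)).map hd} h' b' d' T' := by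
  classical
  have hE2 : hd e2 = u := pa_lastE (W := e1 :: M) pm
  have hF2 : hd f2 = u := pa_lastE (W := f1 :: N) pq
  have hE1 : tl e1 = v := pm.1
  have hF1 : tl f1 = v := pq.1
  rw [set_w, set_v s u W1 W2 M e1 e2 hE2] at H
  rw [set_w, set_v s u W1 W2 N f1 f2 hF2]
  -- heights on the old wall
  have iW1 : ∀ e ∈ W1, h (tl e) < h (hd e) := fun e he => H.inc e (H.WS e (Or.inl (Or.inl he)))
  have iW2 : ∀ e ∈ W2, h (tl e) < h (hd e) := fun e he => H.inc e (H.WS e (Or.inl (Or.inr he)))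
  have iWm : ∀ e ∈ e1 :: (M ++ [e2]), h (tl e) < h (hd e) := fun e he =>
    H.inc e (H.WS e (Or.inr he))
  obtain ⟨hsv, u1⟩ := pa_up p1 iW1
  obtain ⟨hut, u2⟩ := pa_up p2 iW2
  obtain ⟨hvu, um⟩ := pa_up pm iWm
  -- the vertices v and u
  have m1 : e1 ∈ e1 :: (M ++ [e2]) := List.mem_cons_self
  have m2 : e2 ∈ e1 :: (M ++ [e2]) :=
    List.mem_cons_of_mem _ (List.mem_append_right _ (List.mem_singleton_self _))
  have hvU : v ∈ U := by
    have h4 := (H.SU e1 (H.WS e1 (Or.inr m1))).1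
    rw [hE1] at h4
    exact h4
  have huU : u ∈ U := by
    have h4 := (H.SU e2 (H.WS e2 (Or.inr m2))).2
    rw [hE2] at h4
    exact h4
  have hLB : ∀ z ∈ (e1 :: M).map hd, z ∈ U ∧ h v < h z ∧ h z < h u := by
    intro z hz
    obtain ⟨e, he, rfl⟩ := List.mem_map.1 hz
    have he' : e ∈ e1 :: (M ++ [e2]) := by
      rcases List.mem_cons.1 he with rfl | he
      · exact List.mem_cons_self
      · exact List.mem_cons_of_mem _ (List.mem_append_left _ he)
    refine ⟨(H.SU e (H.WS e (Or.inr he'))).2, (um e he').1.trans_lt (iWm e he'), ?_⟩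
    have pm' : Pa tl hd v ((e1 :: M) ++ [e2]) u := pm
    obtain ⟨c, q1, q2⟩ := pa_app.1 pm'
    have q3 := (pa_up q1 (fun e he => iWm e (by
      rcases List.mem_cons.1 he with rfl | he
      · exact List.mem_cons_self
      · exact List.mem_cons_of_mem _ (List.mem_append_left _ he)))).2 e he
    have q4 := iWm e2 m2
    rw [q2.1, hE2] at q4
    exact q3.2.trans_lt q4
  have hB : ∀ z ∈ U, (h v < h z ∧ h z < h u) ↔
      (z ∈ (e1 :: M).map hd ∨ ∃ e ∈ e1 :: (M ++ [e2]), Cv tl hd h z e) := by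
    intro z hz
    constructor
    · rintro ⟨k1, k2⟩
      by_cases hzw : z ∈ {z | z ∈ s :: W1.map hd ∨ z = u ∨ z ∈ W2.map hd} ∪
          {z | z ∈ (e1 :: M).map hd}
      · rcases hzw with (hzw | hzw | hzw) | hzw
        · exfalso
          rcases List.mem_cons.1 hzw with rfl | hzw
          · exact absurd k1 (not_lt.2 hsv)
          · obtain ⟨e, he, rfl⟩ := List.mem_map.1 hzw
            exact absurd k1 (not_lt.2 (u1 e he).2)
        · rw [hzw] at k2
          exact absurd k2 (lt_irrefl _)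
        · exfalso
          obtain ⟨e, he, rfl⟩ := List.mem_map.1 hzw
          exact absurd k2 (not_lt.2 ((u2 e he).1.trans (iW2 e he).le))
        · exact Or.inl hzw
      · obtain ⟨e, he, k3, k4⟩ := H.gap z hz hzw
        rcases he with (he | he) | he
        · exfalso
          have := (u1 e he).2
          linarith
        · exfalso
          have := (u2 e he).1
          linarith
        · exact Or.inr ⟨e, he, k3, k4⟩
    · rintro (k1 | ⟨e, he, k1, k2⟩)
      · exact (hLB z k1).2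
      · exact ⟨(um e he).1.trans_lt k1, k2.trans_le (um e he).2⟩
  -- the new heights
  obtain ⟨h', g1, g2, g3⟩ := place h ((f1 :: N).map hd) hRn lo up h2
  have hh : ∀ z ∈ U, h' z = h z := fun z hz => g1 z (fun h4 => hRU z h4 hz)
  have hv' : h' v = h v := hh v hvU
  have hu' : h' u = h u := hh u huU
  have hfree : ∀ z ∈ U, lo < h z → h z < up → False := by
    intro z hz k1 k2
    rcases hcase with ⟨-, -, -, -, k3⟩ | ⟨-, -, -, -, k3⟩
    · exact absurd k1 (not_lt.2 (k3 z hz (h1.trans_lt k1) (k2.trans_le h3)))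
    · exact absurd k2 (not_lt.2 (k3 z hz (h1.trans_lt k1) (k2.trans_le h3)))
  have hmap : (f1 :: (N ++ [f2])).map hd = (f1 :: N).map hd ++ [u] := by
    rw [List.map_cons, List.map_append, List.map_cons, List.map_nil, hF2, List.map_cons,
      List.cons_append]
  have hQi : ∀ f ∈ f1 :: (N ++ [f2]), h' (tl f) < h' (hd f) := by
    intro f hf
    have k1 : Cons (v :: (f1 :: (N ++ [f2])).map hd) (tl f) (hd f) :=
      (pa_cons pq _ _).2 ⟨f, hf, rfl, rfl⟩
    refine cons_rel (r := fun x y => h' x < h' y) ?_ k1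
    rw [hmap, List.pairwise_cons, List.pairwise_append]
    refine ⟨fun z hz => ?_, g3, List.pairwise_singleton _ _, fun z hz y hy => ?_⟩
    · rcases List.mem_append.1 hz with hz | hz
      · rw [hv']
        exact h1.trans_lt (g2 z hz).1
      · rw [List.mem_singleton.1 hz, hv', hu']
        exact (h1.trans_lt h2).trans_le h3
    · rw [List.mem_singleton.1 hy, hu']
      exact (g2 z hz).2.trans_le h3
  have hQv : ∀ f ∈ f1 :: (N ++ [f2]), tl f ∈ v :: (f1 :: N).map hd :=
    fun f hf => pa_tlm (W := f1 :: N) pq f hf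
  have hQh : ∀ f ∈ f1 :: (N ++ [f2]), hd f ∈ (f1 :: N).map hd ∨ hd f = u := by
    intro f hf
    have k1 : hd f ∈ (f1 :: (N ++ [f2])).map hd := List.mem_map.2 ⟨f, hf, rfl⟩
    rw [hmap, List.mem_append, List.mem_singleton] at k1
    exact k1
  have hQt : ∀ f ∈ f1 :: (N ++ [f2]), f ≠ f1 → tl f ∈ (f1 :: N).map hd := by
    intro f hf hne
    have k1 := (List.mem_cons.1 hf).resolve_left hne
    have k2 := pa_tlm (W := N) pq.2 f k1
    rw [List.map_cons]
    exact k2
  have hMt : ∀ e ∈ e1 :: (M ++ [e2]), e ≠ e1 → tl e ∈ (e1 :: M).map hd := by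
    intro f hf hne
    have k1 := (List.mem_cons.1 hf).resolve_left hne
    have k2 := pa_tlm (W := M) pm.2 f k1
    rw [List.map_cons]
    exact k2
  have hMh : ∀ e ∈ e1 :: (M ++ [e2]), e ≠ e2 → hd e ∈ (e1 :: M).map hd := by
    intro f hf hne
    rcases List.mem_cons.1 hf with rfl | hf
    · exact List.mem_map.2 ⟨_, List.mem_cons_self, rfl⟩
    · rcases List.mem_append.1 hf with hf | hf
      · exact List.mem_map.2 ⟨f, List.mem_cons_of_mem _ hf, rfl⟩
      · exact absurd (List.mem_singleton.1 hf) hne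
  have hQh' : ∀ f ∈ f1 :: (N ++ [f2]), f ≠ f2 → hd f ∈ (f1 :: N).map hd := by
    intro f hf hne
    rcases List.mem_cons.1 hf with rfl | hf
    · exact List.mem_map.2 ⟨_, List.mem_cons_self, rfl⟩
    · rcases List.mem_append.1 hf with hf | hf
      · exact List.mem_map.2 ⟨f, List.mem_cons_of_mem _ hf, rfl⟩
      · exact absurd (List.mem_singleton.1 hf) hne
  have hnc := pa_nc pq hQi
  have hRnc : ∀ z ∈ (f1 :: N).map hd, ∀ f ∈ f1 :: (N ++ [f2]), ¬ Cv tl hd h' z f := by
    intro z hz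
    refine hnc z ?_
    rw [hmap]
    exact List.mem_cons_of_mem _ (List.mem_append_left _ hz)
  have hinj : ∀ x ∈ U ∪ {z | z ∈ (f1 :: N).map hd}, ∀ y ∈ U ∪ {z | z ∈ (f1 :: N).map hd},
      h' x = h' y → x = y := by
    have hRR : ∀ x ∈ (f1 :: N).map hd, ∀ y ∈ (f1 :: N).map hd, h' x = h' y → x = y := by
      intro x hx y hy hxy
      by_contra hne
      rcases (List.pairwise_iff_get.1 g3) with k1
      obtain ⟨i, hi⟩ := List.get_of_mem hx
      obtain ⟨j, hj⟩ := List.get_of_mem hy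
      rcases lt_trichotomy i j with k2 | k2 | k2
      · have k3 := k1 i j k2
        rw [hi, hj, hxy] at k3
        exact lt_irrefl _ k3
      · rw [k2, hj] at hi
        exact hne hi.symm
      · have k3 := k1 j i k2
        rw [hi, hj, hxy] at k3
        exact lt_irrefl _ k3
    rintro x (hx | hx) y (hy | hy) hxy
    · rw [hh x hx, hh y hy] at hxy
      exact H.inj x hx y hy hxy
    · exfalso
      obtain ⟨k1, k2⟩ := g2 y hy
      rw [← hxy, hh x hx] at k1 k2
      exact hfree x hx k1 k2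
    · exfalso
      obtain ⟨k1, k2⟩ := g2 x hx
      rw [hxy, hh y hy] at k1 k2
      exact hfree y hy k1 k2
    · exact hRR x hx y hy hxy
  have n1 : f1 ∈ f1 :: (N ++ [f2]) := List.mem_cons_self
  have n2 : f2 ∈ f1 :: (N ++ [f2]) :=
    List.mem_cons_of_mem _ (List.mem_append_right _ (List.mem_singleton_self _))
  have r1 : hd f1 ∈ (f1 :: N).map hd := List.mem_map.2 ⟨_, List.mem_cons_self, rfl⟩
  have hne12 : ∀ {g1 g2 : E} {K : List E} {k : V → ℚ}, Pa tl hd v (g1 :: (K ++ [g2])) u →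
      (∀ e ∈ g1 :: (K ++ [g2]), k (tl e) < k (hd e)) → g1 ≠ g2 := by
    rintro g1 g2 K k q hk rfl
    have k1 := (pa_up q.2 (fun e he => hk e (List.mem_cons_of_mem _ he))).2 g1
      (List.mem_append_right _ (List.mem_singleton_self _))
    exact absurd (hk g1 List.mem_cons_self) (not_lt.2 k1.1)
  have ne12 : e1 ≠ e2 := hne12 pm iWm
  have nf12 : f1 ≠ f2 := hne12 pq hQi
  have r2 : tl f2 ∈ (f1 :: N).map hd := hQt f2 n2 nf12.symm
  have hWU : ∀ e ∈ e1 :: (M ++ [e2]), h' (tl e) = h (tl e) ∧ h' (hd e) = h (hd e) := by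
    intro e he
    obtain ⟨k1, k2⟩ := H.SU e (H.WS e (Or.inr he))
    exact ⟨hh _ k1, hh _ k2⟩
  obtain ⟨b', d', H'⟩ := H.step (Q := {f | f ∈ f1 :: (N ++ [f2])}) (R := {z | z ∈ (f1 :: N).map hd})
    (h' := h') (e' := e') (et := et) (eo := eo)
    (by
      rintro e (he | he) he2
      · have := (u1 e he).2
        have := (um e he2).1
        have := iWm e he2
        linarith
      · have := (u2 e he).1
        have := (um e he2).2
        have := iWm e he2
        linarith)
    (by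
      rintro z hz hzL
      obtain ⟨k0, k1, k2⟩ := hLB z hzL
      rcases hz with hz | hz | hz
      · rcases List.mem_cons.1 hz with rfl | hz
        · exact absurd k1 (not_lt.2 hsv)
        · obtain ⟨e, he, rfl⟩ := List.mem_map.1 hz
          exact absurd k1 (not_lt.2 (u1 e he).2)
      · rw [hz] at k2
        exact absurd k2 (lt_irrefl _)
      · obtain ⟨e, he, rfl⟩ := List.mem_map.1 hz
        exact absurd k2 (not_lt.2 ((u2 e he).1.trans (iW2 e he).le)))
    hQS hRU hh
    (by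
      intro f hf
      refine ⟨?_, ?_⟩
      · rcases List.mem_cons.1 (hQv f hf) with k1 | k1
        · rw [k1]
          exact Or.inl hvU
        · exact Or.inr k1
      · rcases hQh f hf with k1 | k1
        · exact Or.inr k1
        · rw [k1]
          exact Or.inl huU)
    hQi hinj
    (by rcases hcase with ⟨k, -⟩ | ⟨k, -⟩ <;> rw [k] <;> assumption)
    (by
      rintro z (hz | hz)
      · have hB' : (z ∈ {z | z ∈ (e1 :: M).map hd} ∨
            ∃ e ∈ {e | e ∈ e1 :: (M ++ [e2])}, Cv tl hd h z e) ↔ (h v < h z ∧ h z < h u) :=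
          (hB z hz).symm
        rw [hB']
        rcases hcase with ⟨k1, -, -, k2, k3⟩ | ⟨k1, -, -, k2, k3⟩
        · rw [k1]
          unfold Cv
          rw [hF1, hv', hh z hz]
          obtain ⟨k4, k5⟩ := g2 _ r1
          constructor
          · rintro ⟨k6, k7⟩
            exact ⟨⟨k6, by linarith⟩, hz⟩
          · rintro ⟨⟨k6, k7⟩, -⟩
            exact ⟨k6, (k3 z hz k6 k7).trans_lt k4⟩
        · rw [k1]
          unfold Cv
          rw [hF2, hu', hh z hz]
          obtain ⟨k4, k5⟩ := g2 _ r2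
          constructor
          · rintro ⟨k6, k7⟩
            exact ⟨⟨by linarith, k7⟩, hz⟩
          · rintro ⟨⟨k6, k7⟩, -⟩
            exact ⟨k5.trans_le (k3 z hz k6 k7), k7⟩
      · constructor
        · intro k1
          exfalso
          rcases hcase with ⟨k2, -⟩ | ⟨k2, -⟩
          · rw [k2] at k1
            exact hRnc z hz f1 n1 k1
          · rw [k2] at k1
            exact hRnc z hz f2 n2 k1
        · rintro ⟨-, k1⟩
          exact absurd k1 (hRU z hz))
    (by
      rintro f hf hfe z (hz | hz) hc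
      · obtain ⟨k1, k2⟩ := hc
        rw [hh z hz] at k1 k2
        rcases hcase with ⟨k3, -, -, k4, -⟩ | ⟨k3, -, -, k4, -⟩
        · rw [k3] at hfe
          have k5 := (g2 _ (hQt f hf hfe)).1
          have k6 : h' (hd f) ≤ up := by
            rcases hQh f hf with k7 | k7
            · exact (g2 _ k7).2.le
            · rw [k7, hu', k4]
          exact hfree z hz (k5.trans k1) (k2.trans_le k6)
        · rw [k3] at hfe
          have k5 := (g2 _ (hQh' f hf hfe)).2
          have k6 : lo ≤ h' (tl f) := by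
            rcases List.mem_cons.1 (hQv f hf) with k7 | k7
            · rw [k7, hv', k4]
            · exact (g2 _ k7).1.le
          exact hfree z hz (k6.trans_lt k1) (k2.trans k5)
      · exact hRnc z hz f hf hc)
    (by
      rintro e he z hz ⟨k1, k2⟩
      obtain ⟨k3, k4⟩ := g2 z hz
      have he' : e ∈ S := H.WS e (Or.inl he)
      rw [hh _ (H.SU e he').1] at k1
      rw [hh _ (H.SU e he').2] at k2
      rcases he with he | he
      · have := (u1 e he).2
        linarith
      · have := (u2 e he).1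
        linarith)
    (by rcases hcase with ⟨-, k, -⟩ | ⟨-, k, -⟩ <;> rw [k] <;> assumption)
    (by rcases hcase with ⟨-, -, k, -⟩ | ⟨-, -, k, -⟩ <;> rw [k] <;> assumption)
    (by
      rcases hcase with ⟨-, k1, k2, -⟩ | ⟨-, k1, k2, -⟩
      · rw [k1, k2]
        exact ne12.symm
      · rw [k1, k2]
        exact ne12)
    ⟨hd e1, List.mem_map.2 ⟨_, List.mem_cons_self, rfl⟩⟩ hsz
    (by
      intro e he hne
      obtain ⟨k7, k8⟩ := hWU e he
      rw [k7, k8]
      rcases hcase with ⟨k1, k2, -, -, k3⟩ | ⟨k1, k2, -, -, k3⟩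
      · rw [k1, hF1, hv']
        rw [k2] at hne
        refine ⟨(um e he).1, ?_⟩
        obtain ⟨k4, k5, k6⟩ := hLB _ (hMh e he hne)
        exact (k3 _ k4 k5 k6).trans (g2 _ r1).1.le
      · rw [k1, hF2, hu']
        rw [k2] at hne
        refine ⟨?_, (um e he).2⟩
        obtain ⟨k4, k5, k6⟩ := hLB _ (hMt e he hne)
        exact (g2 _ r2).2.le.trans (k3 _ k4 k5 k6))
  exact ⟨h', b', d', T + 1, H'⟩

end Pool.Agent.W_a4f561_h8
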