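import Pool.Agent.W_a4f561_h8.Cor
import Pool.Agent.W_a4f561_h34.PmA

/-!
MP_a4f561_co (LatticePages): heights of new vertices, paths with increasing heights.
-/

set_option autoImplicit false

namespace Pool.Agent.W_a4f561_h8

open Pool.Agent.W_a4f561_h34

variable {V E : Type}

/-- New vertices in an interval of heights. -/
theorem place (h : V → ℚ) (R : List V) (hR : R.Nodup) : ∀ a b : ℚ, a < b →
    ∃ h' : V → ℚ, (∀ z, z ∉ R → h' z = h z) ∧ (∀ z ∈ R, a < h' z ∧ h' z < b) ∧
      R.Pairwise (fun x y => h' x < h' y) := by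
  classical
  induction R with
  | nil =>
    intro a b _
    exact ⟨h, fun _ _ => rfl, fun z hz => absurd hz List.not_mem_nil, List.Pairwise.nil⟩
  | cons r R ih =>
    intro a b hab
    obtain ⟨h1, h2⟩ := List.nodup_cons.1 hR
    obtain ⟨g, g1, g2, g3⟩ := ih h2 ((a + b) / 2) b (by linarith)
    have hne : ∀ z ∈ R, z ≠ r := by
      rintro z hz rfl
      exact h1 hz
    refine ⟨Function.update g r ((a + b) / 2), ?_, ?_, ?_⟩
    · intro z hz
      rw [List.mem_cons, not_or] at hz
      rw [Function.update_of_ne hz.1]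
      exact g1 z hz.2
    · intro z hz
      by_cases hzr : z = r
      · rw [hzr, Function.update_self]
        constructor <;> linarith
      · rw [Function.update_of_ne hzr]
        obtain ⟨k1, k2⟩ := g2 z ((List.mem_cons.1 hz).resolve_left hzr)
        exact ⟨by linarith, k2⟩
    · rw [List.pairwise_cons]
      refine ⟨fun z hz => ?_, ?_⟩
      · rw [Function.update_self, Function.update_of_ne (hne z hz)]
        exact (g2 z hz).1
      · refine List.Pairwise.imp_of_mem ?_ g3
        intro x y hx hy hxy
        rw [Function.update_of_ne (hne x hx), Function.update_of_ne (hne y hy)]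
        exact hxy

variable {tl hd : E → V} {h : V → ℚ} {a b : V} {W : List E}

/-- Heights on a path. -/
theorem pa_up (hp : Pa tl hd a W b) (hi : ∀ e ∈ W, h (tl e) < h (hd e)) :
    h a ≤ h b ∧ ∀ e ∈ W, h a ≤ h (tl e) ∧ h (hd e) ≤ h b := by
  induction W generalizing a with
  | nil =>
    have h1 : a = b := hp
    rw [h1]
    exact ⟨le_rfl, fun e he => absurd he List.not_mem_nil⟩
  | cons e W ih =>
    obtain ⟨h1, h2⟩ := hp
    obtain ⟨h3, h4⟩ := ih h2 (fun e he => hi e (List.mem_cons_of_mem _ he))
    have h5 := hi e List.mem_cons_self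
    rw [h1] at h5
    refine ⟨h5.le.trans h3, fun g hg => ?_⟩
    rcases List.mem_cons.1 hg with rfl | hg
    · rw [h1]
      exact ⟨le_rfl, h3⟩
    · obtain ⟨h6, h7⟩ := h4 g hg
      exact ⟨h5.le.trans h6, h7⟩

/-- A vertex of a path is not inside an edge of the path. -/
theorem pa_nc (hp : Pa tl hd a W b) (hi : ∀ e ∈ W, h (tl e) < h (hd e)) :
    ∀ z ∈ a :: W.map hd, ∀ e ∈ W, ¬ Cv tl hd h z e := by
  induction W generalizing a with
  | nil =>
    intro z _ e he
    exact absurd he List.not_mem_nil
  | cons e W ih =>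
    obtain ⟨h1, h2⟩ := hp
    have hi' : ∀ e ∈ W, h (tl e) < h (hd e) := fun e he => hi e (List.mem_cons_of_mem _ he)
    have h5 := hi e List.mem_cons_self
    rintro z hz g hg ⟨k1, k2⟩
    rcases List.mem_cons.1 hz with rfl | hz
    · rcases List.mem_cons.1 hg with rfl | hg
      · rw [h1] at k1
        exact lt_irrefl _ k1
      · have h6 := ((pa_up h2 hi').2 g hg).1
        rw [h1] at h5
        exact absurd k1 (not_lt.2 (h5.le.trans h6))
    · rw [List.map_cons] at hz
      rcases List.mem_cons.1 hg with rfl | hg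
      · have h6 : h (hd g) ≤ h z := by
          rcases List.mem_cons.1 hz with rfl | hz
          · exact le_rfl
          · obtain ⟨g', hg', rfl⟩ := List.mem_map.1 hz
            exact (((pa_up h2 hi').2 g' hg').1).trans (hi' g' hg').le
        exact absurd k2 (not_lt.2 h6)
      · exact ih h2 hi' z hz g hg ⟨k1, k2⟩

/-- Tails of a path. -/
theorem pa_tlm {g : E} (hp : Pa tl hd a (W ++ [g]) b) :
    ∀ e ∈ W ++ [g], tl e ∈ a :: W.map hd := by
  induction W generalizing a with
  | nil =>
    intro e he
    rw [List.nil_append, List.mem_singleton] at he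
    rw [he]
    have h1 : tl g = a := hp.1
    rw [h1]
    exact List.mem_cons_self
  | cons e0 W ih =>
    obtain ⟨h1, h2⟩ := hp
    intro e he
    rw [List.cons_append] at he
    rcases List.mem_cons.1 he with rfl | he
    · rw [h1]
      exact List.mem_cons_self
    · rw [List.map_cons]
      exact List.mem_cons_of_mem _ (ih h2 e he)

/-- The head of the last edge. -/
theorem pa_lastE {g : E} (hp : Pa tl hd a (W ++ [g]) b) : hd g = b := by
  obtain ⟨c, _, h2⟩ := pa_app.1 hp
  exact h2.2

/-- A list with at least two elements. -/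
theorem two_ends {l : List E} (h0 : l ≠ []) (h1 : ∀ e, l ≠ [e]) :
    ∃ e M g, l = e :: (M ++ [g]) := by
  cases l with
  | nil => exact absurd rfl h0
  | cons e l =>
    rcases List.eq_nil_or_concat l with h2 | ⟨M, g, h2⟩
    · exact absurd (by rw [h2]) (h1 e)
    · exact ⟨e, M, g, by rw [h2, List.concat_eq_append]⟩

end Pool.Agent.W_a4f561_h8
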