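import Pool.Agent.W_a4f561_h8.Lsp
import Pool.Agent.W_a4f561_h34.WaG

/-!
MP_a4f561_co (LatticePages): the sweep.
-/

set_option autoImplicit false

namespace Pool.Agent.W_a4f561_h8

open Sum Pool.Agent.W_a4f561_h25 Pool.Agent.W_a4f561_h34

variable {V E : Type} {P : Pl V E} {s t a b : V} {W : List E}

/-- The invariant of the induction over the walls. -/
private def Plm_M (P : Pl V E) (s : V) (W : List E) : Prop :=
  ∃ h b d T, Sta P.tl P.hd {g | ¬ Rg P W (inr g)}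
    {x | ∃ g, ¬ Rg P W (inr g) ∧ (P.tl g = x ∨ P.hd g = x)} {e | e ∈ W}
    {z | z ∈ s :: W.map P.hd} h b d T

private theorem Plm_tl {tl hd : E → V} {a b : V} {W : List E} (h : Pa tl hd a W b) {e : E}
    (he : e ∈ W) : tl e ∈ a :: W.map hd :=
  (cons_mem ((pa_cons h (tl e) (hd e)).2 ⟨e, he, rfl, rfl⟩)).1

theorem pw_inj {h : V → ℚ} {l : List V} (hl : l.Pairwise (fun x y => h x < h y)) :
    ∀ x ∈ l, ∀ y ∈ l, h x = h y → x = y := by
  induction l with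
  | nil => exact fun x hx => absurd hx List.not_mem_nil
  | cons z l ih =>
    obtain ⟨h1, h2⟩ := List.pairwise_cons.1 hl
    intro x hx y hy hxy
    rcases List.mem_cons.1 hx with k1 | k1
    · rcases List.mem_cons.1 hy with k2 | k2
      · rw [k1, k2]
      · have h3 := h1 y k2
        rw [k1] at hxy
        rw [hxy] at h3
        exact absurd h3 (lt_irrefl _)
    · rcases List.mem_cons.1 hy with k2 | k2
      · have h3 := h1 x k1
        rw [k2] at hxy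
        rw [hxy] at h3
        exact absurd h3 (lt_irrefl _)
      · exact ih h2 x k1 y k2 hxy

private theorem Plm_start (hW : Pa P.tl P.hd s W t) (hst : s ≠ t)
    (h0 : ∀ g, ¬ Rg P W (inr g) → g ∈ W) : Plm_M P s W := by
  obtain ⟨h, -, -, hpw⟩ := place (fun _ => (0 : ℚ)) _ (pa_nodup hW) 0 1 (by norm_num)
  have hiff : ∀ g, ¬ Rg P W (inr g) ↔ g ∈ W := fun g => ⟨h0 g, not_rg_mem hW⟩
  have hinc : ∀ e ∈ W, h (P.tl e) < h (P.hd e) := fun e he =>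
    cons_rel (r := fun x y => h x < h y) hpw ((pa_cons hW _ _).2 ⟨e, he, rfl, rfl⟩)
  have hnc := pa_nc hW hinc
  have hUw : ∀ x, (∃ g, ¬ Rg P W (inr g) ∧ (P.tl g = x ∨ P.hd g = x)) → x ∈ s :: W.map P.hd := by
    rintro x ⟨g, hg, rfl | rfl⟩
    · exact Plm_tl hW (h0 g hg)
    · exact List.mem_cons_of_mem _ (List.mem_map.2 ⟨g, h0 g hg, rfl⟩)
  refine ⟨h, fun _ => 0, fun _ => 0, 0, ⟨?_, ?_, ?_, ?_, ?_, ?_, ?_, ?_, ?_, ?_, ?_, ?_, ?_, ?_⟩⟩
  · intro g hg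
    exact ⟨⟨g, hg, Or.inl rfl⟩, ⟨g, hg, Or.inr rfl⟩⟩
  · intro e he
    exact (hiff e).2 he
  · intro x hx
    have hx' : x ∈ s :: W.map P.hd := hx
    rcases List.mem_cons.1 hx' with rfl | hx'
    · cases W with
      | nil => exact absurd hW hst
      | cons e W' => exact ⟨e, (hiff e).2 List.mem_cons_self, Or.inl hW.1⟩
    · obtain ⟨e, he, rfl⟩ := List.mem_map.1 hx'
      exact ⟨e, (hiff e).2 he, Or.inr rfl⟩
  · intro x hx y hy hxy
    exact pw_inj hpw x (hUw x hx) y (hUw y hy) hxy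
  · intro g hg
    exact hinc g (h0 g hg)
  · intro g hg
    exact le_rfl
  · intro z hz hzw
    exact le_rfl
  · intro z hz hzw
    exact absurd (hUw z hz) hzw
  · intro e he z hz
    exact hnc z hz e he
  · intro z hz e he f hf hze hzf
    exact absurd hze (hnc z (hUw z hz) e he)
  · intro e he f hf hc
    exfalso
    have he' := h0 e he
    have hf' := h0 f hf
    rcases hc with ⟨k1, k2, k3⟩ | ⟨k1, k2, k3⟩
    · exact hnc _ (Plm_tl hW hf') e he' ⟨k1, k2⟩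
    · exact hnc _ (Plm_tl hW he') f hf' ⟨k1, k2⟩
  · intro e he f hf hlt
    exact absurd hlt (lt_irrefl _)
  · intro z hz hzw
    exact absurd (hUw z hz) hzw
  · intro z hz hzw
    exact absurd (hUw z hz) hzw

private theorem Plm_step [Finite V]
    (htr : ∀ e Q, Pa P.tl P.hd (P.tl e) Q (P.hd e) → Q = [e])
    (W1 Wm W2 Q : List E) (v u : V) (p1 : Pa P.tl P.hd s W1 v) (pm : Pa P.tl P.hd v Wm u)
    (pq : Pa P.tl P.hd v Q u) (p2 : Pa P.tl P.hd u W2 t) (nm : Wm ≠ []) (nq : Q ≠ [])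
    (hQ : ∀ e ∈ Q, Rg P (W1 ++ (Wm ++ W2)) (inr e))
    (hnew : ∀ e ∈ Q.dropLast, ∀ g, ¬ Rg P (W1 ++ (Wm ++ W2)) (inr g) →
        P.hd g ≠ P.hd e ∧ P.tl g ≠ P.hd e)
    (hiff : ∀ g, Rg P (W1 ++ (Q ++ W2)) (inr g) ↔ Rg P (W1 ++ (Wm ++ W2)) (inr g) ∧ g ∉ Q)
    (hM : Plm_M P s (W1 ++ (Wm ++ W2))) : Plm_M P s (W1 ++ (Q ++ W2)) := by
  classical
  obtain ⟨h, b, d, T, H⟩ := hM
  have hW : Pa P.tl P.hd s (W1 ++ (Wm ++ W2)) t :=
    pa_app.2 ⟨v, p1, pa_app.2 ⟨u, pm, p2⟩⟩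
  have hm : ∀ e ∈ Wm, ¬ Rg P (W1 ++ (Wm ++ W2)) (inr e) := fun e he =>
    not_rg_mem hW (List.mem_append.2 (Or.inr (List.mem_append.2 (Or.inl he))))
  -- the two sides have at least two edges
  have hL : ∀ e, Wm ≠ [e] := by
    intro e he
    rw [he] at pm
    obtain ⟨e1, e2⟩ := pm
    have e3 : P.hd e = u := e2
    have h1 : Q = [e] := htr e Q (by rw [e1, e3]; exact pq)
    refine hm e (by rw [he]; exact List.mem_singleton_self e) (hQ e ?_)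
    rw [h1]
    exact List.mem_singleton_self e
  have hR : ∀ e, Q ≠ [e] := by
    intro e he
    have pq' := pq
    rw [he] at pq'
    obtain ⟨e1, e2⟩ := pq'
    have e3 : P.hd e = u := e2
    have h1 : Wm = [e] := htr e Wm (by rw [e1, e3]; exact pm)
    exact hL e h1
  have hcase : ∀ g, ¬ Rg P (W1 ++ (Q ++ W2)) (inr g) ↔
      (¬ Rg P (W1 ++ (Wm ++ W2)) (inr g) ∨ g ∈ Q) := by
    intro g
    rw [hiff]
    by_cases hg : g ∈ Q <;> simp [hg]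
  -- the end points of the face are old
  have hv : ∃ g, ¬ Rg P (W1 ++ (Wm ++ W2)) (inr g) ∧ (P.tl g = v ∨ P.hd g = v) := by
    cases Wm with
    | nil => exact absurd rfl nm
    | cons e W' => exact ⟨e, hm e List.mem_cons_self, Or.inl pm.1⟩
  have hu : ∃ g, ¬ Rg P (W1 ++ (Wm ++ W2)) (inr g) ∧ (P.tl g = u ∨ P.hd g = u) := by
    have h1 : u ∈ Wm.map P.hd := by
      rw [pa_last' pm nm]
      exact List.mem_append.2 (Or.inr (List.mem_singleton_self u))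
    obtain ⟨e, he, h2⟩ := List.mem_map.1 h1
    exact ⟨e, hm e he, Or.inr h2⟩
  have eq := pa_last' pq nq
  have hRn : (Q.dropLast.map P.hd).Nodup := by
    have h1 := (List.nodup_cons.1 (pa_nodup pq)).2
    rw [eq] at h1
    exact (List.nodup_append.1 h1).1
  have hS' : {g | ¬ Rg P (W1 ++ (Wm ++ W2)) (inr g)} ∪ {g | g ∈ Q} =
      {g | ¬ Rg P (W1 ++ (Q ++ W2)) (inr g)} := by
    ext g
    exact (hcase g).symm
  have hU' : {x | ∃ g, ¬ Rg P (W1 ++ (Wm ++ W2)) (inr g) ∧ (P.tl g = x ∨ P.hd g = x)} ∪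
      {z | z ∈ Q.dropLast.map P.hd} =
      {x | ∃ g, ¬ Rg P (W1 ++ (Q ++ W2)) (inr g) ∧ (P.tl g = x ∨ P.hd g = x)} := by
    ext x
    simp only [Set.mem_union, Set.mem_ofPred_eq, hcase]
    constructor
    · rintro (⟨g, hg, hx⟩ | hx)
      · exact ⟨g, Or.inl hg, hx⟩
      · obtain ⟨e, he, rfl⟩ := List.mem_map.1 hx
        exact ⟨e, Or.inr (List.mem_of_mem_dropLast he), Or.inr rfl⟩
    · rintro ⟨g, hg | hg, hx⟩
      · exact Or.inl ⟨g, hg, hx⟩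
      · have h1 : x ∈ v :: Q.map P.hd := by
          rcases hx with rfl | rfl
          · exact Plm_tl pq hg
          · exact List.mem_cons_of_mem _ (List.mem_map.2 ⟨g, hg, rfl⟩)
        rw [eq, List.mem_cons, List.mem_append, List.mem_singleton] at h1
        rcases h1 with rfl | h1 | rfl
        · exact Or.inl hv
        · exact Or.inr h1
        · exact Or.inl hu
  obtain ⟨e1, M, e2, rfl⟩ := two_ends nm hL
  obtain ⟨f1, N, f2, rfl⟩ := two_ends nq hR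
  have hdl : (f1 :: (N ++ [f2])).dropLast = f1 :: N := by
    rw [← List.cons_append, List.dropLast_concat]
  rw [hdl] at hnew hRn hU'
  -- the block
  have hmU : ∀ e ∈ e1 :: (M ++ [e2]), P.tl e ∈ {x | ∃ g,
      ¬ Rg P (W1 ++ ((e1 :: (M ++ [e2])) ++ W2)) (inr g) ∧ (P.tl g = x ∨ P.hd g = x)} ∧
      P.hd e ∈ {x | ∃ g,
      ¬ Rg P (W1 ++ ((e1 :: (M ++ [e2])) ++ W2)) (inr g) ∧ (P.tl g = x ∨ P.hd g = x)} :=
    fun e he => ⟨⟨e, hm e he, Or.inl rfl⟩, ⟨e, hm e he, Or.inr rfl⟩⟩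
  have iWm : ∀ e ∈ e1 :: (M ++ [e2]), h (P.tl e) < h (P.hd e) := fun e he => H.inc e (hm e he)
  have m1 : e1 ∈ e1 :: (M ++ [e2]) := List.mem_cons_self
  obtain ⟨B, hBd⟩ : ∃ B : Set V, B = {z | z ∈ {x | ∃ g,
      ¬ Rg P (W1 ++ ((e1 :: (M ++ [e2])) ++ W2)) (inr g) ∧ (P.tl g = x ∨ P.hd g = x)} ∧
      h v < h z ∧ h z < h u} := ⟨_, rfl⟩
  have hBm : ∀ z, z ∈ B ↔ z ∈ {x | ∃ g,
      ¬ Rg P (W1 ++ ((e1 :: (M ++ [e2])) ++ W2)) (inr g) ∧ (P.tl g = x ∨ P.hd g = x)} ∧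
      h v < h z ∧ h z < h u := by
    intro z
    rw [hBd]
    rfl
  have hBne : B.Nonempty := by
    refine ⟨P.hd e1, (hBm _).2 ⟨(hmU e1 m1).2, ?_, ?_⟩⟩
    · have k1 := iWm e1 m1
      rw [pm.1] at k1
      exact k1
    · have m2 : e2 ∈ M ++ [e2] := List.mem_append_right _ (List.mem_singleton_self _)
      have k1 := (pa_up pm.2 (fun e he => iWm e (List.mem_cons_of_mem _ he))).2 e2 m2
      exact (k1.1.trans_lt (iWm e2 (List.mem_cons_of_mem _ m2))).trans_le k1.2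
  have hQS : ∀ f ∈ f1 :: (N ++ [f2]),
      f ∉ {g | ¬ Rg P (W1 ++ ((e1 :: (M ++ [e2])) ++ W2)) (inr g)} :=
    fun f hf hn => hn (hQ f hf)
  have hRU : ∀ z ∈ (f1 :: N).map P.hd, z ∉ {x | ∃ g,
      ¬ Rg P (W1 ++ ((e1 :: (M ++ [e2])) ++ W2)) (inr g) ∧ (P.tl g = x ∨ P.hd g = x)} := by
    intro z hz
    obtain ⟨e, he, rfl⟩ := List.mem_map.1 hz
    rintro ⟨g, hg, h1 | h1⟩
    · exact (hnew e he g hg).2 h1
    · exact (hnew e he g hg).1 h1
  have hgo : ∃ h' b' d' T', Sta P.tl P.hd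
      ({g | ¬ Rg P (W1 ++ ((e1 :: (M ++ [e2])) ++ W2)) (inr g)} ∪ {f | f ∈ f1 :: (N ++ [f2])})
      ({x | ∃ g, ¬ Rg P (W1 ++ ((e1 :: (M ++ [e2])) ++ W2)) (inr g) ∧ (P.tl g = x ∨ P.hd g = x)} ∪
        {z | z ∈ (f1 :: N).map P.hd})
      {e | e ∈ W1 ++ ((f1 :: (N ++ [f2])) ++ W2)}
      {z | z ∈ s :: (W1 ++ ((f1 :: (N ++ [f2])) ++ W2)).map P.hd} h' b' d' T' := by
    rcases le_total (Gp P.tl P.hd h {x | ∃ g,
      ¬ Rg P (W1 ++ ((e1 :: (M ++ [e2])) ++ W2)) (inr g) ∧ (P.tl g = x ∨ P.hd g = x)} e2).ncard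
      (Gp P.tl P.hd h {x | ∃ g,
      ¬ Rg P (W1 ++ ((e1 :: (M ++ [e2])) ++ W2)) (inr g) ∧ (P.tl g = x ∨ P.hd g = x)} e1).ncard
      with hc | hc
    · obtain ⟨z0, hz0, hmax⟩ := Set.exists_max_image B h (Set.toFinite _) hBne
      obtain ⟨k1, k2, k3⟩ := (hBm z0).1 hz0
      exact face_go p1 pm pq p2 H hQS hRU hRn (h z0) (h u) k2.le k3 le_rfl f1 e2 e1
        (Or.inl ⟨rfl, rfl, rfl, rfl, fun z hz k4 k5 => hmax z ((hBm z).2 ⟨hz, k4, k5⟩)⟩) hc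
    · obtain ⟨z0, hz0, hmin⟩ := Set.exists_min_image B h (Set.toFinite _) hBne
      obtain ⟨k1, k2, k3⟩ := (hBm z0).1 hz0
      exact face_go p1 pm pq p2 H hQS hRU hRn (h v) (h z0) le_rfl k2 k3.le f2 e1 e2
        (Or.inr ⟨rfl, rfl, rfl, rfl, fun z hz k4 k5 => hmin z ((hBm z).2 ⟨hz, k4, k5⟩)⟩) hc
  rw [hS', hU'] at hgo
  exact hgo

/-- The theorem for planar st-structures without transitive edges. -/
theorem pl_log [Finite V] [Finite E] (h : StP P s t) (hst : s ≠ t)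
    (htr : ∀ e Q, Pa P.tl P.hd (P.tl e) Q (P.hd e) → Q = [e]) (N : ℕ)
    (hN : ∀ e, {z | z ≠ s ∧ z ≠ t ∧ z ≠ P.tl e ∧ z ≠ P.hd e}.ncard + 1 ≤ N) :
    ∃ k : V → ℚ, Function.Injective k ∧ (∀ e, k (P.tl e) < k (P.hd e)) ∧
      ∀ F : Finset E, Tw P.tl P.hd k F → F.card ≤ 2 * Nat.log 2 N + 3 := by
  obtain ⟨W, hW, hall, k, b, d, T, H⟩ := wall_induction h hst (Plm_M P s)
    (fun W hW h0 => Plm_start hW hst h0)
    (fun W1 Wm W2 Q v u p1 pm pq p2 nm nq hQ hnew hiff hM =>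
      Plm_step htr W1 Wm W2 Q v u p1 pm pq p2 nm nq hQ hnew hiff hM)
  have hU : ∀ x, x ∈ {x | ∃ g, ¬ Rg P W (inr g) ∧ (P.tl g = x ∨ P.hd g = x)} := by
    intro x
    by_cases hx : x = s
    · obtain ⟨e, he⟩ := h.out s hst
      exact ⟨e, hall e, Or.inl (he.trans hx.symm)⟩
    · obtain ⟨e, he⟩ := h.inn x hx
      exact ⟨e, hall e, Or.inr he⟩
  refine ⟨k, fun x y hxy => H.inj x (hU x) y (hU y) hxy, fun e => H.inc e (hall e), fun F hF => ?_⟩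
  refine H.fin (Nat.log 2 N) (fun e he => ?_) F (fun f _ => hall f) hF
  unfold lg
  refine Nat.log_mono_right ((Nat.add_le_add_right (Set.ncard_le_ncard ?_ (Set.toFinite _)) 1).trans
    (hN e))
  rintro z ⟨-, h1, h2⟩
  have ht : t ∈ s :: W.map P.hd := by
    obtain ⟨l, hl⟩ := pa_last hW
    rw [hl]
    exact List.mem_append_right _ (List.mem_singleton_self _)
  refine ⟨?_, ?_, ?_, ?_⟩
  · rintro rfl
    exact H.nw e he z List.mem_cons_self ⟨h1, h2⟩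
  · rintro rfl
    exact H.nw e he z ht ⟨h1, h2⟩
  · rintro rfl
    exact lt_irrefl _ h1
  · rintro rfl
    exact lt_irrefl _ h2

end Pool.Agent.W_a4f561_h8
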